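import Pool.Agent.Lib.MP_a50f86_an.SC.Two
import Pool.Agent.Lib.MP_a50f86_an.SC.Orbit

set_option autoImplicit false

/-!
# Extremal conformal harmonic discs exist but are not unique in strongly convex domains

For every `n ≥ 3` there is a bounded strongly convex domain of `ℝⁿ` with a polynomial defining
function in which two different extremal discs have the same centre and the same frame. Extremal
discs exist in every open bounded convex set. The non-uniqueness is stable under small symmetric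
perturbations, and for `n ≥ 4` there are uncountably many extremal discs with the same data.
-/

namespace Pool.Agent.Results.MP_a50f86_an.TwoExtremalDiscs

/-- The open unit disc. -/
def Disc : Set ℂ := Metric.ball 0 1

/-- The partial derivative `f_x` of a map of the plane. -/
noncomputable def dx {n : ℕ} (f : ℂ → EuclideanSpace ℝ (Fin n)) (z : ℂ) :
    EuclideanSpace ℝ (Fin n) := fderiv ℝ f z 1

/-- The partial derivative `f_y` of a map of the plane. -/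
noncomputable def dy {n : ℕ} (f : ℂ → EuclideanSpace ℝ (Fin n)) (z : ℂ) :
    EuclideanSpace ℝ (Fin n) := fderiv ℝ f z Complex.I

/-- `(u, v)` is a conformal frame. -/
def Frame {n : ℕ} (u v : EuclideanSpace ℝ (Fin n)) : Prop := ‖u‖ = ‖v‖ ∧ inner ℝ u v = 0

/-- `Ω` is a bounded convex domain with smooth boundary. -/
def SmoothConvexDomain {n : ℕ} (Ω : Set (EuclideanSpace ℝ (Fin n))) : Prop :=
  IsOpen Ω ∧ Ω.Nonempty ∧ Bornology.IsBounded Ω ∧ Convex ℝ Ω ∧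
    ∃ (U : Set (EuclideanSpace ℝ (Fin n))) (ρ : EuclideanSpace ℝ (Fin n) → ℝ),
      IsOpen U ∧ closure Ω ⊆ U ∧ ContDiffOn ℝ ((⊤ : ℕ∞) : WithTop ℕ∞) ρ U ∧
        Ω = {x | x ∈ U ∧ ρ x < 0} ∧ ∀ x ∈ frontier Ω, fderiv ℝ ρ x ≠ 0

/-- The polynomial `P` as a function on `ℝⁿ`. -/
noncomputable def ev {n : ℕ} (P : MvPolynomial (Fin n) ℝ) (x : EuclideanSpace ℝ (Fin n)) : ℝ :=
  MvPolynomial.eval (fun i => x i) P

/-- `Ω = {P < 0}` for a strongly convex polynomial `P` with `dP ≠ 0` on the boundary. -/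
def StronglyConvexPolynomial {n : ℕ} (Ω : Set (EuclideanSpace ℝ (Fin n))) : Prop :=
  ∃ (P : MvPolynomial (Fin n) ℝ) (m : ℝ), 0 < m ∧ StrongConvexOn Set.univ m (ev P) ∧
    Ω = {x | ev P x < 0} ∧ ∀ x ∈ frontier Ω, fderiv ℝ (ev P) x ≠ 0

/-- `CH(𝔻, Ω)`: the conformal harmonic maps of the disc to `Ω`. -/
def CHD {n : ℕ} (Ω : Set (EuclideanSpace ℝ (Fin n))) : Set (ℂ → EuclideanSpace ℝ (Fin n)) :=
  {f | ContDiffOn ℝ 2 f Disc ∧ (∀ z ∈ Disc, f z ∈ Ω) ∧ (∀ z ∈ Disc, Frame (dx f z) (dy f z)) ∧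
    ∀ z ∈ Disc, dx (dx f) z + dy (dy f) z = 0}

/-- `f(0) = p`, `f_x(0) = r u`, `f_y(0) = r v`. -/
def Fits {n : ℕ} (p u v : EuclideanSpace ℝ (Fin n)) (r : ℝ) (f : ℂ → EuclideanSpace ℝ (Fin n)) :
    Prop := f 0 = p ∧ dx f 0 = r • u ∧ dy f 0 = r • v

/-- `M_Ω(p, (u, v))`. -/
noncomputable def metricM {n : ℕ} (Ω : Set (EuclideanSpace ℝ (Fin n)))
    (p u v : EuclideanSpace ℝ (Fin n)) : ℝ :=
  sInf {t | ∃ r : ℝ, 0 < r ∧ t = 1 / r ∧ ∃ f ∈ CHD Ω, Fits p u v r f}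

/-- `f` is an extremal disc for `(p, (u, v))`. -/
def IsExtremal {n : ℕ} (Ω : Set (EuclideanSpace ℝ (Fin n))) (p u v : EuclideanSpace ℝ (Fin n))
    (f : ℂ → EuclideanSpace ℝ (Fin n)) : Prop :=
  f ∈ CHD Ω ∧ ∃ r : ℝ, 0 < r ∧ r = 1 / metricM Ω p u v ∧ Fits p u v r f

/-- The unit vectors `e 0, e 1, …` of `ℝⁿ`. -/
noncomputable def e (n j : ℕ) : EuclideanSpace ℝ (Fin n) :=
  WithLp.toLp 2 fun i => if (i : ℕ) = j then 1 else 0

/-- The reflection in the plane of the first two coordinates. -/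
noncomputable def mirror {n : ℕ} (x : EuclideanSpace ℝ (Fin n)) : EuclideanSpace ℝ (Fin n) :=
  WithLp.toLp 2 fun i => if (i : ℕ) < 2 then x i else - x i

/-- The domain
`x₀⁴ + x₁⁴ + (x₂² + … + xₙ₋₁²)² / 16 + (x₀² + … + xₙ₋₁²) / 200 < 1`. -/
def Omega0 (n : ℕ) : Set (EuclideanSpace ℝ (Fin n)) :=
  {x | (∑ i : Fin n, if (i : ℕ) < 2 then x i ^ 4 else 0)
    + (∑ i : Fin n, if (i : ℕ) < 2 then 0 else x i ^ 2) ^ 2 / 16
    + (∑ i : Fin n, x i ^ 2) / 200 < 1}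

open Pool.Agent.Lib.MP_a50f86_an.SC

theorem omega0_eq (n : ℕ) : Omega0 n = OmS n := by
  ext x
  simp only [Omega0, OmS, rhoS, Set.mem_ofPred_eq]
  constructor
  · intro h; linarith
  · intro h; linarith

theorem mem_CHD {n : ℕ} (Ω : Set (EuclideanSpace ℝ (Fin n))) (f : ℂ → EuclideanSpace ℝ (Fin n)) :
    f ∈ CHD Ω ↔ CHn Ω f := Iff.rfl

theorem isExtremal_iff {n : ℕ} (Ω : Set (EuclideanSpace ℝ (Fin n)))
    (p u v : EuclideanSpace ℝ (Fin n)) (f : ℂ → EuclideanSpace ℝ (Fin n)) :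
    IsExtremal Ω p u v f ↔ ∃ r : ℝ, 0 < r ∧ CHn Ω f ∧ f 0 = p ∧ fderiv ℝ f 0 1 = r • u ∧
      fderiv ℝ f 0 Complex.I = r • v ∧ ∀ g : ℂ → EuclideanSpace ℝ (Fin n), ∀ s : ℝ, 0 < s →
        CHn Ω g → g 0 = p → fderiv ℝ g 0 1 = s • u → fderiv ℝ g 0 Complex.I = s • v → s ≤ r := by
  have hbdd : BddBelow {t | ∃ r : ℝ, 0 < r ∧ t = 1 / r ∧ ∃ f ∈ CHD Ω, Fits p u v r f} := by
    refine ⟨0, ?_⟩
    rintro _ ⟨r, hr, rfl, -⟩
    positivity
  constructor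
  · rintro ⟨hf, r, hr, hrM, h0, h1, h2⟩
    refine ⟨r, hr, (mem_CHD Ω f).1 hf, h0, h1, h2, ?_⟩
    intro g s hs hg g0 g1 g2
    have h3 : metricM Ω p u v ≤ 1 / s :=
      csInf_le hbdd ⟨s, hs, rfl, g, (mem_CHD Ω g).2 hg, g0, g1, g2⟩
    have h4 : metricM Ω p u v = 1 / r := by
      rw [hrM, one_div_one_div]
    rw [h4] at h3
    exact (one_div_le_one_div hr hs).1 h3
  · rintro ⟨r, hr, hf, h0, h1, h2, hmax⟩
    refine ⟨(mem_CHD Ω f).2 hf, r, hr, ?_, h0, h1, h2⟩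
    have h4 : metricM Ω p u v = 1 / r := by
      refine le_antisymm (csInf_le hbdd ⟨r, hr, rfl, f, (mem_CHD Ω f).2 hf, h0, h1, h2⟩) ?_
      refine le_csInf ⟨_, r, hr, rfl, f, (mem_CHD Ω f).2 hf, h0, h1, h2⟩ ?_
      rintro _ ⟨s, hs, rfl, g, hg, g0, g1, g2⟩
      exact one_div_le_one_div_of_le hs (hmax g s hs ((mem_CHD Ω g).1 hg) g0 g1 g2)
    rw [h4, one_div_one_div]

theorem frame_ne {n : ℕ} {u v : EuclideanSpace ℝ (Fin n)} (h : Frame u v) (hne : (u, v) ≠ (0, 0)) :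
    u ≠ 0 := by
  intro hu
  apply hne
  have h1 : ‖v‖ = 0 := by rw [← h.1, hu, norm_zero]
  rw [hu, norm_eq_zero.1 h1]

/-- Existence. -/
theorem exists_isExtremal {n : ℕ} {Ω : Set (EuclideanSpace ℝ (Fin n))} (hO : IsOpen Ω)
    (hb : Bornology.IsBounded Ω) (hc : Convex ℝ Ω) {p u v : EuclideanSpace ℝ (Fin n)} (hp : p ∈ Ω)
    (hF : Frame u v) (hne : (u, v) ≠ (0, 0)) : ∃ f, IsExtremal Ω p u v f := by
  obtain ⟨f, r, hr, h1, h2, h3, h4, h5⟩ := exists_extremal hO hb hc hp hF.1 hF.2 (frame_ne hF hne)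
  exact ⟨f, (isExtremal_iff Ω p u v f).2 ⟨r, hr, h1, h2, h3, h4, h5⟩⟩

theorem norm_e {n j : ℕ} (hj : j < n) : ‖e n j‖ = 1 := by
  have h : e n j = EuclideanSpace.single (⟨j, hj⟩ : Fin n) (1 : ℝ) := by
    ext i
    have e1 : e n j i = if (i : ℕ) = j then 1 else 0 := rfl
    rw [e1, PiLp.single_apply]
    simp only [Fin.ext_iff]
  rw [h]
  simp

theorem frame_e {n : ℕ} (hn : 3 ≤ n) : Frame (e n 0) (e n 1) ∧
    ((e n 0, e n 1) : EuclideanSpace ℝ (Fin n) × EuclideanSpace ℝ (Fin n)) ≠ (0, 0) := by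
  refine ⟨⟨?_, ?_⟩, ?_⟩
  · rw [norm_e (by omega), norm_e (by omega)]
  · rw [PiLp.inner_apply]
    refine Finset.sum_eq_zero fun i _ => ?_
    have e0 : e n 0 i = if (i : ℕ) = 0 then 1 else 0 := rfl
    have e1 : e n 1 i = if (i : ℕ) = 1 then 1 else 0 := rfl
    rw [e0, e1]
    by_cases h : (i : ℕ) = 0
    · simp [h]
    · simp [h]
  · intro h
    have h1 : e n 0 = 0 := congrArg Prod.fst h
    have h2 := norm_e (n := n) (j := 0) (by omega)
    rw [h1, norm_zero] at h2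
    exact zero_ne_one h2

/-- Isometries which fix the frame map extremal discs to extremal discs. -/
theorem isExtremal_isometry {n : ℕ} {Ω : Set (EuclideanSpace ℝ (Fin n))}
    (A : EuclideanSpace ℝ (Fin n) ≃ₗᵢ[ℝ] EuclideanSpace ℝ (Fin n)) (hA : ∀ x ∈ Ω, A x ∈ Ω)
    {u v : EuclideanSpace ℝ (Fin n)} (hu : A u = u) (hv : A v = v)
    {f : ℂ → EuclideanSpace ℝ (Fin n)} (hf : IsExtremal Ω 0 u v f) :
    IsExtremal Ω 0 u v (fun z => A (f z)) := by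
  obtain ⟨h1, r, hr, hrM, h0, hx, hy⟩ := hf
  have hfd : ∀ z w : ℂ, fderiv ℝ (fun w => A (f w)) z w = A (fderiv ℝ f z w) := by
    intro z w
    have h : fderiv ℝ (A ∘ f) z =
        (A : EuclideanSpace ℝ (Fin n) →L[ℝ] EuclideanSpace ℝ (Fin n)).comp (fderiv ℝ f z) :=
      A.comp_fderiv
    have h2 : fderiv ℝ (fun w => A (f w)) z =
        (A : EuclideanSpace ℝ (Fin n) →L[ℝ] EuclideanSpace ℝ (Fin n)).comp (fderiv ℝ f z) := h
    rw [h2]
    rfl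
  refine ⟨CHn_isometry A hA h1, r, hr, hrM, ?_, ?_, ?_⟩
  · show A (f 0) = 0
    rw [h0, map_zero]
  · show fderiv ℝ (fun w => A (f w)) 0 1 = r • u
    rw [hfd]
    have : fderiv ℝ f 0 1 = r • u := hx
    rw [this, map_smul, hu]
  · show fderiv ℝ (fun w => A (f w)) 0 Complex.I = r • v
    rw [hfd]
    have : fderiv ℝ f 0 Complex.I = r • v := hy
    rw [this, map_smul, hv]

/-- The mirror as an isometry. -/
noncomputable def mirrorIso (n : ℕ) : EuclideanSpace ℝ (Fin n) ≃ₗᵢ[ℝ] EuclideanSpace ℝ (Fin n) :=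
  LinearIsometryEquiv.piLpCongrRight 2
    (fun i : Fin n => if (i : ℕ) < 2 then LinearIsometryEquiv.refl ℝ ℝ
      else LinearIsometryEquiv.neg ℝ)

theorem mirrorIso_apply {n : ℕ} (x : EuclideanSpace ℝ (Fin n)) : mirrorIso n x = mirror x := by
  ext i
  unfold mirrorIso mirror
  rw [LinearIsometryEquiv.piLpCongrRight_apply]
  by_cases h : (i : ℕ) < 2
  · simp [h]
  · simp [h]

theorem mirrorIso_e {n j : ℕ} (hj : j < 2) : mirrorIso n (e n j) = e n j := by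
  rw [mirrorIso_apply]
  ext i
  have e1 : e n j i = if (i : ℕ) = j then 1 else 0 := rfl
  have e2 : mirror (e n j) i = if (i : ℕ) < 2 then e n j i else - e n j i := rfl
  rw [e2, e1]
  by_cases h : (i : ℕ) < 2
  · simp [h]
  · have : (i : ℕ) ≠ j := by omega
    simp [this]

/-- Extremal discs in domains near `Omega0` leave the plane of the frame. -/
theorem leaves {n : ℕ} (hn : 3 ≤ n) {Ω : Set (EuclideanSpace ℝ (Fin n))}
    (h1 : ∀ x ∈ Omega0 n, (1 - 1 / 2000 : ℝ) • x ∈ Ω)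
    (h2 : ∀ x ∈ Ω, (1 + 1 / 2000 : ℝ)⁻¹ • x ∈ Omega0 n) {f : ℂ → EuclideanSpace ℝ (Fin n)}
    (hf : IsExtremal Ω 0 (e n 0) (e n 1) f) :
    ∃ z ∈ Disc, ∃ i : Fin n, 2 ≤ (i : ℕ) ∧ f z i ≠ 0 := by
  obtain ⟨r, hr, hc, hf0, hfx, hfy, hmax⟩ := (isExtremal_iff Ω 0 (e n 0) (e n 1) f).1 hf
  refine leaves_plane hn (ε := 1 / 2000) (by norm_num) le_rfl ?_ ?_ hr hc hf0 hfx hfy hmax
  · intro x hx
    exact h1 x (by rw [omega0_eq]; exact hx)
  · intro x hx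
    refine ⟨(1 + 1 / 2000 : ℝ)⁻¹ • x, ?_, ?_⟩
    · rw [← omega0_eq]; exact h2 x hx
    · rw [smul_smul, mul_inv_cancel₀ (by norm_num), one_smul]

theorem near_self {n : ℕ} : (∀ x ∈ Omega0 n, (1 - 1 / 2000 : ℝ) • x ∈ Omega0 n) ∧
    (∀ x ∈ Omega0 n, (1 + 1 / 2000 : ℝ)⁻¹ • x ∈ Omega0 n) := by
  have hstar : ∀ t : ℝ, 0 ≤ t → t ≤ 1 → ∀ x ∈ Omega0 n, t • x ∈ Omega0 n := by
    intro t ht0 ht1 x hx
    rw [omega0_eq] at hx ⊢
    have h := convex_OmS n hx (zero_mem_OmS n) ht0 (by linarith : (0 : ℝ) ≤ 1 - t) (by ring)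
    simpa using h
  exact ⟨hstar _ (by norm_num) (by norm_num), hstar _ (by norm_num) (by norm_num)⟩

theorem mirror_ne {n : ℕ} {x : EuclideanSpace ℝ (Fin n)} {i : Fin n} (hi : 2 ≤ (i : ℕ))
    (hx : x i ≠ 0) : mirror x ≠ x := by
  intro h
  have h1 : mirror x i = if (i : ℕ) < 2 then x i else - x i := rfl
  rw [h, if_neg (by omega)] at h1
  apply hx
  linarith

/-- **Theorem.** -/
theorem result :
    -- two different extremal discs for the same point and frame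
    (∀ n : ℕ, 3 ≤ n → ∃ Ω : Set (EuclideanSpace ℝ (Fin n)),
      SmoothConvexDomain Ω ∧ StronglyConvexPolynomial Ω ∧
      ∃ p ∈ Ω, ∃ u v : EuclideanSpace ℝ (Fin n), Frame u v ∧ (u, v) ≠ (0, 0) ∧
        ∃ f g, IsExtremal Ω p u v f ∧ IsExtremal Ω p u v g ∧ ∃ z ∈ Disc, f z ≠ g z) ∧
    -- existence in all bounded convex domains
    (∀ (n : ℕ) (Ω : Set (EuclideanSpace ℝ (Fin n))), IsOpen Ω → Bornology.IsBounded Ω →
      Convex ℝ Ω → ∀ p ∈ Ω, ∀ u v : EuclideanSpace ℝ (Fin n), Frame u v → (u, v) ≠ (0, 0) →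
        ∃ f, IsExtremal Ω p u v f) ∧
    -- stability
    (∀ n : ℕ, 3 ≤ n → ∀ Ω : Set (EuclideanSpace ℝ (Fin n)), IsOpen Ω → Convex ℝ Ω →
      (∀ x ∈ Omega0 n, (1 - 1 / 2000 : ℝ) • x ∈ Ω) →
      (∀ x ∈ Ω, (1 + 1 / 2000 : ℝ)⁻¹ • x ∈ Omega0 n) → (∀ x ∈ Ω, mirror x ∈ Ω) →
        (∃ f, IsExtremal Ω 0 (e n 0) (e n 1) f) ∧
        ∀ f, IsExtremal Ω 0 (e n 0) (e n 1) f →
          IsExtremal Ω 0 (e n 0) (e n 1) (fun z => mirror (f z)) ∧ ∃ z ∈ Disc, mirror (f z) ≠ f z) ∧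
    -- uncountably many
    (∀ n : ℕ, 4 ≤ n → SmoothConvexDomain (Omega0 n) ∧ StronglyConvexPolynomial (Omega0 n) ∧
      ∃ z ∈ Disc, ¬ Set.Countable {y | ∃ g, IsExtremal (Omega0 n) 0 (e n 0) (e n 1) g ∧ g z = y}) := by
  have hdom : ∀ n : ℕ, SmoothConvexDomain (Omega0 n) ∧ StronglyConvexPolynomial (Omega0 n) := by
    intro n
    rw [omega0_eq]
    constructor
    · refine ⟨isOpen_OmS n, ⟨0, zero_mem_OmS n⟩, bounded_OmS n, convex_OmS n, Set.univ, rhoS,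
        isOpen_univ, Set.subset_univ _, contDiff_rhoS.contDiffOn, ?_, fun x hx => fderiv_rhoS_ne hx⟩
      ext x; simp [OmS]
    · have he : ev (polyS n) = rhoS := funext eval_polyS
      refine ⟨polyS n, 1 / 100, by norm_num, ?_, ?_, ?_⟩
      · rw [he]; exact strongConvex_rhoS n
      · ext x
        show rhoS x < 0 ↔ ev (polyS n) x < 0
        rw [he]
      · intro x hx
        rw [he]; exact fderiv_rhoS_ne hx
  have hzero : ∀ n : ℕ, (0 : EuclideanSpace ℝ (Fin n)) ∈ Omega0 n := by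
    intro n
    rw [omega0_eq]; exact zero_mem_OmS n
  have hiso : ∀ (n : ℕ) (A : EuclideanSpace ℝ (Fin n) ≃ₗᵢ[ℝ] EuclideanSpace ℝ (Fin n)),
      A (e n 0) = e n 0 → A (e n 1) = e n 1 → ∀ x ∈ Omega0 n, A x ∈ Omega0 n := by
    intro n A h0 h1 x hx
    rw [omega0_eq] at hx ⊢
    show rhoS (A x) < 0
    rw [rhoS_isometry A h0 h1]
    exact hx
  have hstab : ∀ n : ℕ, 3 ≤ n → ∀ Ω : Set (EuclideanSpace ℝ (Fin n)), IsOpen Ω → Convex ℝ Ω →
      (∀ x ∈ Omega0 n, (1 - 1 / 2000 : ℝ) • x ∈ Ω) →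
      (∀ x ∈ Ω, (1 + 1 / 2000 : ℝ)⁻¹ • x ∈ Omega0 n) → (∀ x ∈ Ω, mirror x ∈ Ω) →
        (∃ f, IsExtremal Ω 0 (e n 0) (e n 1) f) ∧
        ∀ f, IsExtremal Ω 0 (e n 0) (e n 1) f →
          IsExtremal Ω 0 (e n 0) (e n 1) (fun z => mirror (f z)) ∧
            ∃ z ∈ Disc, mirror (f z) ≠ f z := by
    intro n hn Ω hO hc h1 h2 hm
    have h0 : (0 : EuclideanSpace ℝ (Fin n)) ∈ Ω := by
      have := h1 0 (hzero n)
      simpa using this
    have hb : Bornology.IsBounded Ω := by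
      obtain ⟨M, hM⟩ := isBounded_iff_forall_norm_le.1 (hdom n).1.2.2.1
      rw [isBounded_iff_forall_norm_le]
      refine ⟨(1 + 1 / 2000) * M, fun x hx => ?_⟩
      have h3 := hM _ (h2 x hx)
      rw [norm_smul, Real.norm_eq_abs, abs_of_pos (by positivity),
        inv_mul_le_iff₀ (by norm_num)] at h3
      exact h3
    refine ⟨exists_isExtremal hO hb hc h0 (frame_e hn).1 (frame_e hn).2, fun f hf => ⟨?_, ?_⟩⟩
    · have := isExtremal_isometry (mirrorIso n)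
        (fun x hx => by rw [mirrorIso_apply]; exact hm x hx) (mirrorIso_e (n := n) (j := 0) (by norm_num))
        (mirrorIso_e (n := n) (j := 1) (by norm_num)) hf
      simpa only [mirrorIso_apply] using this
    · obtain ⟨z, hz, i, hi, hne⟩ := leaves hn h1 h2 hf
      exact ⟨z, hz, mirror_ne hi hne⟩
  have hmir : ∀ n : ℕ, ∀ x ∈ Omega0 n, mirror x ∈ Omega0 n := by
    intro n x hx
    have := hiso n (mirrorIso n) (mirrorIso_e (by norm_num)) (mirrorIso_e (by norm_num)) x hx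
    rwa [mirrorIso_apply] at this
  refine ⟨?_, ?_, hstab, ?_⟩
  · intro n hn
    obtain ⟨⟨f, hf⟩, hall⟩ := hstab n hn (Omega0 n) (hdom n).1.1 (hdom n).1.2.2.2.1 near_self.1
      near_self.2 (hmir n)
    obtain ⟨hg, z, hz, hne⟩ := hall f hf
    exact ⟨Omega0 n, (hdom n).1, (hdom n).2, 0, hzero n, e n 0, e n 1, (frame_e hn).1,
      (frame_e hn).2, _, f, hg, hf, z, hz, hne⟩
  · intro n Ω hO hb hc p hp u v hF hne
    exact exists_isExtremal hO hb hc hp hF hne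
  · intro n hn
    refine ⟨(hdom n).1, (hdom n).2, ?_⟩
    obtain ⟨f, hf⟩ := exists_isExtremal (hdom n).1.1 (hdom n).1.2.2.1 (hdom n).1.2.2.2.1 (hzero n)
      (frame_e (by omega : 3 ≤ n)).1 (frame_e (by omega : 3 ≤ n)).2
    obtain ⟨z, hz, i, hi, hne⟩ := leaves (by omega) near_self.1 near_self.2 hf
    refine ⟨z, hz, not_countable_orbit hn hi hne fun y hy1 hy2 => ?_⟩
    obtain ⟨A, hAy, hA0, hA1⟩ := exists_isometry hy1 hy2
    exact ⟨fun w => A (f w), isExtremal_isometry A (hiso n A hA0 hA1) hA0 hA1 hf, hAy⟩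

end Pool.Agent.Results.MP_a50f86_an.TwoExtremalDiscs
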